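import Pool.Agent.W886.AM.Fin

/-!
# How many strings of a random oracle have to be changed to separate `MA` and `AM`?

For almost every oracle `O` the classes `NP`, `MA`, `AM` relative to `O` are equal. Here the oracle
`O` is changed by an adversary who knows it: for a function `g`, the oracle `A` is obtained from `O`
by changing, for all large `n`, at most `g n` of the strings of length at most `n`.

If `g` is polynomially bounded, then, for almost every `O`, still `NP^A = MA^A = AM^A` for all these
`A`, however the changes depend on `O`. If `g` is not polynomially bounded, then, for almost every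
`O`, there is such an `A` with a language in `AM^A` that is not in `MA^A`.

(Polynomially bounded means here that for some `c` and all large `n` there is `m ≥ n` with
`g m ≤ n ^ c`. If `g` is nondecreasing, this says that `g n ≤ n ^ c` for some `c` and all large `n`;
in general it is the right condition, since the number of changed strings of length at most `n` is
nondecreasing in `n`.)
-/

set_option autoImplicit false

namespace Pool.Agent.Results.MP_ff3ed7_lc.ChangedStrings

open Pool.Agent.NPC Pool.Agent.H620R2.Gauge Pool.Agent.W886.AM Pool.Agent.W895.MA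
open Pool.Agent.H628R3.RO (randomOracle)
open Pool.Agent.W900.CH (Close)
open MeasureTheory

theorem result (g : ℕ → ℝ) :
    ((∃ c : ℕ, ∀ᶠ n : ℕ in Filter.atTop, ∃ m ≥ n, g m ≤ (n : ℝ) ^ c) →
      ∀ᵐ O ∂randomOracle, ∀ A : Oracle, Close g O A →
        (∀ L, IsAM A L ↔ IsNP A L) ∧ ∀ L, IsMA A L ↔ IsNP A L) ∧
    ((¬ ∃ c : ℕ, ∀ᶠ n : ℕ in Filter.atTop, ∃ m ≥ n, g m ≤ (n : ℝ) ^ c) →
      ∀ᵐ O ∂randomOracle, ∃ A : Oracle, Close g O A ∧ ∃ L, IsAM A L ∧ ¬ IsMA A L) :=
  ⟨few, many⟩

end Pool.Agent.Results.MP_ff3ed7_lc.ChangedStrings
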