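import Pool.Agent.W895.MA.Gen

/-!
# One Arthur-Merlin game, correct relative to every oracle, beats MA and SBP at a generic oracle

Oracles are sets of bit strings (points of Cantor space `List Bool → Bool`, product topology);
`Alg` is the type of polynomial-time oracle algorithms, `M.out A x` the output of `M` with oracle
`A` on input `x`. `amPr V m x` is the probability, over a uniformly random string `w` of length
`m`, that some message `y` of length at most `m` makes `V` accept `⟨w, ⟨y, x⟩⟩`.
-/

set_option autoImplicit false

namespace Pool.Agent.Results.MP_ff3ed7_lc.GenericOracle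

open Pool.Agent.NPC Pool.Agent.H620R2.Gauge Pool.Agent.W895.MA

/-- There is one Arthur-Merlin game (algorithm `M`, lengths `p`) which relative to **every** oracle
`A` keeps its promise: Arthur accepts either with probability one or with probability at most
`1 / 16`. Hence it defines, for every `A`, a language in `AM` relative to `A`; and for all oracles
`A` in a comeager set this language is neither in `MA` nor in `SBP` relative to `A`. -/
theorem result :
    ∃ (M : Alg) (p : Polynomial ℕ) (V : Oracle → List Bool → List Bool),
      (∀ A x, M.out A x = some (V A x)) ∧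
      (∀ A x, amPr (V A) (p.eval x.length) x = 1 ∨ amPr (V A) (p.eval x.length) x ≤ 1 / 16) ∧
      (∀ A, IsAM A {x | amPr (V A) (p.eval x.length) x = 1}) ∧
      {A : Oracle | ¬ IsMA A {x | amPr (V A) (p.eval x.length) x = 1} ∧
        ¬ IsSBP A {x | amPr (V A) (p.eval x.length) x = 1}} ∈ residual Oracle := by
  obtain ⟨M, hM⟩ := exists_alg
  have hprom : ∀ (A : Oracle) (x : List Bool), amPr (VV A) (p4.eval x.length) x = 1 ∨
      amPr (VV A) (p4.eval x.length) x ≤ 1 / 16 := by
    intro A x
    by_cases h : IsShift (tab A x.length)
    · exact Or.inr (amPr_le A x h)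
    · exact Or.inl (amPr_eq_one A x h)
  have hL : ∀ A : Oracle, {x | amPr (VV A) (p4.eval x.length) x = 1} = LL A := fun A =>
    Set.ext fun x => amPr_iff A x
  refine ⟨M, p4, VV, hM, hprom, fun A => ⟨VV A, p4, ⟨M, hM A⟩, fun x => ⟨fun hx => ?_,
    fun hx => ?_⟩⟩, ?_⟩
  · rw [Set.mem_ofPred_eq] at hx
    rw [hx]
    norm_num
  · rw [Set.mem_ofPred_eq] at hx
    rcases hprom A x with h | h
    · exact absurd h hx
    · linarith
  · simp only [hL]
    exact residual_all

end Pool.Agent.Results.MP_ff3ed7_lc.GenericOracle
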