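import Pool.Agent.W895.LA.Final

/-!
# Arthur-Merlin games against Merlin-Arthur games for programs which run in linear time

The model is the one of time-space lower bounds: branching programs on `n` Boolean variables,
`2 ^ s` nodes stand for space `s`, the number of queries for the time, and the program is chosen
by the messages of the players.

We give functions with Arthur-Merlin games of perfect completeness in which the messages are short,
the error is exponentially small in their length (less than `J ^ (-1/8)`, `J` being the number of
the answers of Merlin), and the input is then read only once, in a fixed order, in space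
`n ^ (1 / e)`. They have no Merlin-Arthur games in time `k n` and space `n / β n`, whatever the
length `w ≤ n / β n` of the message of Merlin, if the error is `2 ^ (- w / c) / 4`, however large
the constants `c` and `k` are; not even games in which Arthur accepts with tiny probabilities
(as in the class SBP) are possible.

The function: `2 ^ m * m` quadratic forms of the input (`m` a large constant, or growing slowly)
are read as the table of a map `g` from the plane over the field with `2 ^ (m / 2)` elements to
itself, and the value is `true` if the fibres of `g` are not the lines of one direction. The random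
quadratic forms in blocks and the treatment of programs of length `k n` by rectangles (Ajtai;
Beame, Saks, Sun, Vee) are those of `Pool.Agent.H554R2` (results `NondetNotRandomised` and
`LinearTimeBothSides`, proved by many seats). New are the function, the one-sided comparison
of permutations with line maps after some places of the table are fixed, its transfer to programs
of length `k n`, and the amplification.
-/

set_option autoImplicit false

namespace Pool.Agent.Results.MP_ff3ed7_lc.LinearTimeGames

open Pool.Agent.H554R2.Sem Pool.Agent.H554R2.Coin

/-- The branching program `P` accepts the input `x` after at most `τ` queries. -/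
def Acc {n : ℕ} (P : BP (Fin n) Bool) (τ : ℕ) (x : Pt n) : Prop :=
  ∃ l, P.Comp x l true ∧ l.length ≤ τ

/-- The function `f` has an Arthur-Merlin game of the following kind.  Arthur sends one of `R`
messages `r`, chosen at random, Merlin answers by one of `J` messages `j`, where `R ≤ J ≤ D`, and
then the program `V r j` is run.  It has at most `2 ^ s` nodes, where `s ^ e ≤ D n`, and on all
inputs it reads the same variables in the same order, each of them at most once.  If `f x = true`
then Merlin has good answers to all the messages `r`; if `f x = false` then the part of the
messages `r` to which he has a good answer is at most `2 ^ (-q)` and at most `J ^ (-1/8)`. -/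
def OnePassAM (n e q D : ℕ) (f : Pt n → Bool) : Prop :=
  ∃ (s R J : ℕ) (V : Fin R → Fin J → BP (Fin n) Bool),
    s ^ e ≤ D * n ∧ 1 ≤ R ∧ R ≤ J ∧ J ≤ D ∧
    (∀ r j, Fintype.card (V r j).State ≤ 2 ^ s ∧
      ∃ l : List (Fin n), l.Nodup ∧ ∀ x : Pt n, ∃ b, (V r j).Comp x l b) ∧
    (∀ x, f x = true → ∀ r, ∃ j, ∃ l, (V r j).Comp x l true) ∧
    ∀ x, f x = false → 2 ^ q * Nat.card {r // ∃ j, ∃ l, (V r j).Comp x l true} ≤ R ∧
      Nat.card {r // ∃ j, ∃ l, (V r j).Comp x l true} ^ 8 * J ≤ R ^ 8

/-- The function `f` has no Merlin-Arthur game of the following kind.  Merlin sends one of `W`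
messages `y`, where `W ≤ 2 ^ (n / D)`, and then a random program `P y ω` with at most `2 ^ (n / D)`
nodes is run for at most `τ ≤ k n` steps (`ω` is uniform in `Fin T`).  With `p = b / T` for some
`b ≥ 1`, `p ≥ 2 ^ (- n / D)`: if `f x = true` then there is a message for which the probability to
accept is at least `2 p`, and if `f x = false` then the probability to accept is at most
`W ^ (-1/c) p` for all messages. -/
def NoMA (n k c D : ℕ) (f : Pt n → Bool) : Prop :=
  ∀ τ ≤ k * n, ∀ W T b : ℕ, 1 ≤ b → W ≤ 2 ^ (n / D) → T ≤ b * 2 ^ (n / D) →
    ∀ P : Fin W → Fin T → BP (Fin n) Bool, (∀ y ω, Fintype.card (P y ω).State ≤ 2 ^ (n / D)) →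
    ∃ x, (f x = true ∧ ∀ y, Nat.card {ω // Acc (P y ω) τ x} < 2 * b) ∨
      (f x = false ∧ ∃ y, b ^ c < W * Nat.card {ω // Acc (P y ω) τ x} ^ c)

/-- Let `β n` tend to infinity, as slowly as one likes.  There is a family of Boolean functions
`F n` such that for all constants `k`, `e`, `c ≥ 1`, `q` and all large `n` the function `F n` has
a one-pass Arthur-Merlin game in space `(β n * n) ^ (1 / e)` with at most `β n` messages, but no
Merlin-Arthur game in time `k n` and space `n / β n`. -/
theorem result (β : ℕ → ℕ) (hβ : Filter.Tendsto β Filter.atTop Filter.atTop) :
    ∃ F : ∀ n, Pt n → Bool, ∀ k e c q : ℕ, 1 ≤ c → ∃ N, ∀ n ≥ N,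
      OnePassAM n e q (β n) (F n) ∧ NoMA n k c (β n) (F n) :=
  Pool.Agent.W895.LA.family β hβ

end Pool.Agent.Results.MP_ff3ed7_lc.LinearTimeGames
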